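import Pool.Agent.helper14.AU.Spec

/-!
# Project au: module SG (the gadgets force what they should)
-/

set_option autoImplicit false

namespace Pool.Agent.helper14.AU

theorem SG_area (a b c : Pt) : area a b c = |dt a b c| / 2 := rfl

theorem SG_zero {a b c : Pt} (h : area a b c = 0) : dt a b c = 0 := by
  rw [SG_area] at h
  exact abs_eq_zero.mp (by linarith)

theorem SG_ne {a b c : Pt} (h : area a b c = 1) : dt a b c ≠ 0 := by
  rw [SG_area] at h
  intro h0
  rw [h0, abs_zero] at h
  norm_num at h

theorem SG_ne12 {a b c : Pt} (h : area a b c = 1) : a ≠ b := by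
  intro h0
  subst h0
  apply SG_ne h
  unfold dt
  ring

/-- vectors parallel to the same non-zero vector are parallel -/
theorem SG_par {v1 v2 x1 x2 w1 w2 : ℝ} (hw : ¬ (w1 = 0 ∧ w2 = 0)) (h1 : v1 * w2 = v2 * w1)
    (h2 : x1 * w2 = x2 * w1) : v1 * x2 = v2 * x1 := by
  by_cases hw1 : w1 = 0
  · have hw2 : w2 ≠ 0 := fun h => hw ⟨hw1, h⟩
    apply mul_left_cancel₀ hw2
    linear_combination x2 * h1 - v2 * h2
  · apply mul_left_cancel₀ hw1
    linear_combination (x1 * h1 - v1 * h2)

theorem SG_nz {a b : Pt} (h : a ≠ b) : ¬ (b.1 - a.1 = 0 ∧ b.2 - a.2 = 0) := by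
  rintro ⟨h1, h2⟩
  apply h
  apply Prod.ext
  · linarith
  · linarith

theorem SG : SG_stmt := by
  refine ⟨?_, fun p q o h => SG_ne12 h, ?_⟩
  · intro p q r f g h o o' hpq h1 h2 h3 h4 h5 h6
    have hfg := SG_nz (SG_ne12 h5)
    have hrh := SG_nz (SG_ne12 h6)
    have hu := SG_nz hpq
    replace h1 := SG_zero h1
    replace h2 := SG_zero h2
    replace h3 := SG_zero h3
    replace h4 := SG_zero h4
    unfold dt at h1 h2 h3 h4
    -- `u` is parallel to `h - r`
    have e1 : (q.1 - p.1) * (h.2 - r.2) = (q.2 - p.2) * (h.1 - r.1) := by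
      apply SG_par hfg
      · linear_combination h2 - h1
      · linear_combination h3 - h4
    -- `f - p` is parallel to `h - r`
    have e2 : (f.1 - p.1) * (h.2 - r.2) = (f.2 - p.2) * (h.1 - r.1) := by
      apply SG_par hu
      · linear_combination -h1
      · linear_combination -e1
    -- `p - r` is parallel to `h - r`
    have e3 : (p.1 - r.1) * (h.2 - r.2) = (p.2 - r.2) * (h.1 - r.1) := by
      linear_combination h3 - e2
    have e4 := SG_par hrh e3 e1
    unfold dt
    linear_combination e4
  · intro p q r s1 s2 hpq hpr h1 h2 h3 h0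
    have hu := SG_nz hpq
    have hv := SG_nz hpr
    apply SG_ne h3
    replace h1 := SG_zero h1
    replace h2 := SG_zero h2
    unfold dt at h0 h1 h2 ⊢
    have e1 : (s1.1 - p.1) * (r.2 - p.2) = (s1.2 - p.2) * (r.1 - p.1) := by
      apply SG_par hu
      · linear_combination -h1
      · linear_combination -h0
    have e2 : (s1.1 - p.1) * (s2.2 - p.2) = (s1.2 - p.2) * (s2.1 - p.1) := by
      apply SG_par hv
      · exact e1
      · linear_combination -h2
    linear_combination e2

end Pool.Agent.helper14.AU
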