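import Pool.Agent.helper14.AU.Spec

/-!
# Project au: module TS0 (the list is a system of triples)
-/

set_option autoImplicit false

namespace Pool.Agent.helper14.AU

/-- the third name of a triple of an item is one of its fresh names -/
theorem TS0_rng {b : ℕ} {it : Item} {t : ℕ × ℕ × ℕ} (h : t ∈ trip b it) :
    b ≤ t.2.2 ∧ t.2.2 ≤ b + 4 := by
  unfold trip mk at h
  split_ifs at h
  · simp only [List.mem_cons, List.not_mem_nil, or_false] at h
    rcases h with h | h | h | h | h | h <;> subst h <;> simp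
  · simp only [List.mem_cons, List.not_mem_nil, or_false] at h
    subst h; simp
  · simp only [List.mem_cons, List.not_mem_nil, or_false] at h
    rcases h with h | h | h <;> subst h <;> simp
  · simp only [List.mem_cons, List.not_mem_nil, or_false] at h
    rcases h with h | h <;> subst h <;> simp

theorem TS0_mk {N0 b p q f : ℕ} (hp : p < N0) (hq : q < N0) (hb : N0 ≤ b) (hf : b ≤ f)
    (hpq : p ≠ q) : (mk p q f).1 < (mk p q f).2.1 ∧ (mk p q f).2.1 < (mk p q f).2.2 := by
  unfold mk
  refine ⟨?_, ?_⟩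
  · show min p q < max p q
    omega
  · show max p q < f
    omega

theorem TS0_lt {N0 b : ℕ} {it : Item} (hb : N0 ≤ b) (ok : ItOk N0 it) {t : ℕ × ℕ × ℕ}
    (h : t ∈ trip b it) : t.1 < t.2.1 ∧ t.2.1 < t.2.2 := by
  obtain ⟨k, p, q, r⟩ := it
  obtain ⟨hp, hq, hr, hpq, hpr, hqr⟩ := ok
  simp only at hp hq hr hpq hpr hqr
  unfold trip at h
  simp only at h
  split_ifs at h with h0 h1 h2
  · simp only [List.mem_cons, List.not_mem_nil, or_false] at h
    rcases h with h | h | h | h | h | h <;> subst h
    · exact TS0_mk hp hq hb le_rfl hpq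
    · exact TS0_mk hp hq hb (Nat.le_succ b) hpq
    all_goals (refine ⟨?_, ?_⟩ <;> simp only <;> omega)
  · simp only [List.mem_cons, List.not_mem_nil, or_false] at h
    subst h
    exact TS0_mk hp hq hb le_rfl hpq
  · simp only [List.mem_cons, List.not_mem_nil, or_false] at h
    rcases h with h | h | h <;> subst h
    · exact TS0_mk hp hq hb le_rfl hpq
    · exact TS0_mk hp hr hb (Nat.le_succ b) (hpr h0 h1)
    · refine ⟨?_, ?_⟩ <;> simp only <;> omega
  · simp only [List.mem_cons, List.not_mem_nil, or_false] at h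
    rcases h with h | h <;> subst h
    · exact TS0_mk hp hq hb le_rfl hpq
    · exact TS0_mk hq hr hb le_rfl (hqr h0 h1 h2)

theorem TS0_nodup {N0 b : ℕ} {it : Item} (hb : N0 ≤ b) (ok : ItOk N0 it) :
    (trip b it).Nodup := by
  obtain ⟨k, p, q, r⟩ := it
  obtain ⟨hp, hq, hr, hpq, hpr, hqr⟩ := ok
  simp only at hp hq hr hpq hpr hqr
  unfold trip mk
  simp only
  split_ifs with h0 h1 h2
  · simp only [List.nodup_cons, List.mem_cons, List.not_mem_nil, or_false, Prod.mk.injEq, not_or,
      not_false_eq_true, List.nodup_nil, and_true, not_and]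
    refine ⟨⟨?_, ?_, ?_, ?_, ?_⟩, ⟨?_, ?_, ?_, ?_⟩, ⟨?_, ?_, ?_⟩, ⟨?_, ?_⟩, ?_⟩ <;> intros <;> omega
  · simp
  · simp only [List.nodup_cons, List.mem_cons, List.not_mem_nil, or_false, Prod.mk.injEq, not_or,
      not_false_eq_true, List.nodup_nil, and_true, not_and]
    refine ⟨⟨?_, ?_⟩, ?_⟩ <;> intros <;> omega
  · simp only [List.nodup_cons, List.mem_cons, List.not_mem_nil, or_false, Prod.mk.injEq,
      not_false_eq_true, List.nodup_nil, and_true, not_and]
    have := hpr h0 h1
    intros
    omega

theorem TS0 : TS0_stmt := by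
  intro N0 G it hok
  refine ⟨?_, ?_⟩
  · intro t ht
    unfold sysT at ht
    rw [List.mem_flatMap] at ht
    obtain ⟨g, hg, ht⟩ := ht
    exact TS0_lt (Nat.le_add_right _ _) (hok g (List.mem_range.mp hg)) ht
  · unfold sysT
    rw [List.nodup_flatMap]
    refine ⟨fun g hg => TS0_nodup (Nat.le_add_right _ _) (hok g (List.mem_range.mp hg)), ?_⟩
    apply List.Pairwise.imp (R := fun a b : ℕ => a < b)
    · intro a b hab
      rw [Function.onFun, List.disjoint_left]
      intro t h1 h2
      have e1 := TS0_rng h1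
      have e2 := TS0_rng h2
      omega
    · exact List.pairwise_lt_range
end Pool.Agent.helper14.AU
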